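import Mathlib
import Pool.Agent.W289.SL.Defs

set_option autoImplicit false
set_option linter.unusedSectionVars false

/-!
# Units tensored with `ℂ_p` and real logarithms
-/

namespace Pool.Agent.W332.SL6

open NumberField TensorProduct Pool.Agent.W289.SL
open NumberField.Units NumberField.Units.dirichletUnitTheorem

variable {p : ℕ} [Fact p.Prime]

section maps

variable {H M N : Type} [Field H] [NumberField H] [Field M] [NumberField M] [Field N] [NumberField N]

/-- the map on units induced by a ring homomorphism, written additively -/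
noncomputable def uMap (f : H →+* M) : Additive (𝓞 H)ˣ →+ Additive (𝓞 M)ˣ :=
  MonoidHom.toAdditive (Units.map (RingOfIntegers.mapRingHom f).toMonoidHom)

lemma uMap_coe (f : H →+* M) (u : Additive (𝓞 H)ˣ) :
    (((Additive.toMul (uMap f u) : (𝓞 M)ˣ) : 𝓞 M) : M) = f ((Additive.toMul u : (𝓞 H)ˣ) : 𝓞 H) :=
  rfl

lemma uMap_comp (f : H →+* M) (g : M →+* N) (u : Additive (𝓞 H)ˣ) :
    uMap g (uMap f u) = uMap (g.comp f) u := by
  apply Additive.toMul.injective
  apply Units.ext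
  apply RingOfIntegers.ext
  rfl

/-- the `ℂ_p`-linear extension of `uMap` -/
noncomputable def push (f : H →+* M) : UM p H →ₗ[ℂ_[p]] UM p M :=
  (uMap f).toIntLinearMap.baseChange ℂ_[p]

lemma push_tmul (f : H →+* M) (c : ℂ_[p]) (u : Additive (𝓞 H)ˣ) :
    push f (c ⊗ₜ u : UM p H) = c ⊗ₜ uMap f u := rfl

lemma push_push (f : H →+* M) (g : M →+* N) (x : UM p H) :
    push g (push f x) = push (g.comp f) x := by
  induction x using TensorProduct.induction_on with
  | zero => simp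
  | tmul c u => rw [push_tmul, push_tmul, push_tmul, uMap_comp]
  | add x y hx hy => rw [map_add, map_add, map_add, hx, hy]

lemma actLin_eq (f : H →+* H) (x : UM p H) : actLin p f x = push f x := rfl

lemma logLin_tmul' {L : ℂ_[p] → ℂ_[p]} (hL : IsIwasawaLog p L) (σ : H →+* ℂ_[p]) (c : ℂ_[p])
    (u : Additive (𝓞 H)ˣ) :
    logLin hL σ (c ⊗ₜ u) = c * L (σ ((Additive.toMul u : (𝓞 H)ˣ) : 𝓞 H)) := rfl

lemma logLin_push {L : ℂ_[p] → ℂ_[p]} (hL : IsIwasawaLog p L) (f : H →+* M) (σ : M →+* ℂ_[p])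
    (x : UM p H) : logLin hL σ (push f x) = logLin hL (σ.comp f) x := by
  induction x using TensorProduct.induction_on with
  | zero => simp
  | tmul c u => rw [push_tmul, logLin_tmul', logLin_tmul']; rfl
  | add x y hx hy => rw [map_add, map_add, map_add, hx, hy]

/-- `u ↦ θ⁻¹ (log |s u|)` -/
noncomputable def lamHom (θ : ℂ_[p] ≃+* ℂ) (s : H →+* ℂ) : Additive (𝓞 H)ˣ →+ ℂ_[p] where
  toFun u := θ.symm ((Real.log ‖s ((Additive.toMul u : (𝓞 H)ˣ) : 𝓞 H)‖ : ℝ) : ℂ)
  map_zero' := by simp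
  map_add' u v := by
    rw [toMul_add, Units.val_mul]
    have h1 : ∀ w : (𝓞 H)ˣ, ‖s ((w : 𝓞 H) : H)‖ ≠ 0 := by
      intro w
      rw [norm_ne_zero_iff, Ne, map_eq_zero]
      simp
    have h2 : s (((Additive.toMul u : (𝓞 H)ˣ) : 𝓞 H) * ((Additive.toMul v : (𝓞 H)ˣ) : 𝓞 H) : 𝓞 H)
        = s ((Additive.toMul u : (𝓞 H)ˣ) : 𝓞 H) * s ((Additive.toMul v : (𝓞 H)ˣ) : 𝓞 H) := by
      rw [← map_mul]; rfl
    rw [h2, norm_mul, Real.log_mul (h1 _) (h1 _)]
    push_cast
    rw [map_add]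

/-- the `ℂ_p`-linear extension of `lamHom` -/
noncomputable def lam (θ : ℂ_[p] ≃+* ℂ) (s : H →+* ℂ) : UM p H →ₗ[ℂ_[p]] ℂ_[p] :=
  (lamHom θ s).toIntLinearMap.liftBaseChange ℂ_[p]

lemma lam_tmul (θ : ℂ_[p] ≃+* ℂ) (s : H →+* ℂ) (c : ℂ_[p]) (u : Additive (𝓞 H)ˣ) :
    lam θ s (c ⊗ₜ u) =
      c * θ.symm ((Real.log ‖s ((Additive.toMul u : (𝓞 H)ˣ) : 𝓞 H)‖ : ℝ) : ℂ) := rfl

lemma lam_push (θ : ℂ_[p] ≃+* ℂ) (f : H →+* M) (t : M →+* ℂ) (x : UM p H) :
    lam θ t (push f x) = lam θ (t.comp f) x := by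
  induction x using TensorProduct.induction_on with
  | zero => simp
  | tmul c u => rw [push_tmul, lam_tmul, lam_tmul]; rfl
  | add x y hx hy => rw [map_add, map_add, map_add, hx, hy]

lemma lam_congr (θ : ℂ_[p] ≃+* ℂ) (s t : H →+* ℂ) (h : ∀ y, ‖s y‖ = ‖t y‖) (x : UM p H) :
    lam θ s x = lam θ t x := by
  induction x using TensorProduct.induction_on with
  | zero => simp
  | tmul c u => rw [lam_tmul, lam_tmul, h]
  | add x y hx hy => rw [map_add, map_add, hx, hy]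

lemma lam_conj (θ : ℂ_[p] ≃+* ℂ) (s : H →+* ℂ) (x : UM p H) :
    lam θ ((starRingEnd ℂ).comp s) x = lam θ s x :=
  lam_congr θ _ _ (fun y => by
    rw [RingHom.comp_apply, RCLike.norm_conj]) x

end maps

section units

variable {H : Type} [Field H] [NumberField H]

/-- the fundamental units in `ℂ_p ⊗ 𝓞_H^×` -/
noncomputable def fu (H : Type) [Field H] [NumberField H] (k : Fin (Units.rank H)) :
    Additive (𝓞 H)ˣ := Additive.ofMul (fundSystem H k)

lemma one_tmul_torsion (ζ : (𝓞 H)ˣ) (hζ : ζ ∈ torsion H) :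
    (1 : ℂ_[p]) ⊗ₜ[ℤ] (Additive.ofMul ζ : Additive (𝓞 H)ˣ) = 0 := by
  have hfin : IsOfFinOrder ζ := (CommGroup.mem_torsion _).1 hζ
  obtain ⟨n, hn, h1⟩ := isOfFinOrder_iff_pow_eq_one.1 hfin
  have h2 : (n : ℤ) • (Additive.ofMul ζ : Additive (𝓞 H)ˣ) = 0 := by
    rw [← ofMul_zpow, zpow_natCast, h1, ofMul_one]
  have h3 : (n : ℂ_[p]) • ((1 : ℂ_[p]) ⊗ₜ[ℤ] (Additive.ofMul ζ : Additive (𝓞 H)ˣ)) = 0 := by
    rw [TensorProduct.smul_tmul', smul_eq_mul, mul_one]
    have h4 : (n : ℂ_[p]) = (n : ℤ) • (1 : ℂ_[p]) := by simp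
    rw [h4, TensorProduct.smul_tmul, h2, TensorProduct.tmul_zero]
  have h5 : (n : ℂ_[p]) ≠ 0 := by exact_mod_cast hn.ne'
  exact (smul_eq_zero.1 h3).resolve_left h5

lemma one_tmul_decomp (u : Additive (𝓞 H)ˣ) : ∃ n : Fin (Units.rank H) → ℤ,
    (1 : ℂ_[p]) ⊗ₜ[ℤ] u = ∑ k, (n k : ℂ_[p]) • ((1 : ℂ_[p]) ⊗ₜ[ℤ] fu H k) := by
  obtain ⟨⟨ζ, n⟩, h, -⟩ := exist_unique_eq_mul_prod H (Additive.toMul u)
  refine ⟨n, ?_⟩
  have h1 : u = Additive.ofMul (ζ : (𝓞 H)ˣ) + ∑ k, n k • fu H k := by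
    apply Additive.toMul.injective
    rw [h, toMul_add, toMul_sum]
    rfl
  rw [h1, TensorProduct.tmul_add, one_tmul_torsion _ ζ.2, zero_add, TensorProduct.tmul_sum]
  refine Finset.sum_congr rfl fun k _ => ?_
  have h2 : (1 : ℂ_[p]) ⊗ₜ[ℤ] (n k • fu H k) = n k • ((1 : ℂ_[p]) ⊗ₜ[ℤ] fu H k) :=
    map_zsmul ((TensorProduct.mk ℤ ℂ_[p] (Additive (𝓞 H)ˣ)) 1) (n k) (fu H k)
  rw [h2, Int.cast_smul_eq_zsmul]

lemma decomp (x : UM p H) : ∃ b : Fin (Units.rank H) → ℂ_[p],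
    x = ∑ k, b k • ((1 : ℂ_[p]) ⊗ₜ[ℤ] fu H k) := by
  induction x using TensorProduct.induction_on with
  | zero => exact ⟨0, by simp⟩
  | tmul c u =>
    obtain ⟨n, hn⟩ := one_tmul_decomp (p := p) u
    refine ⟨fun k => c * n k, ?_⟩
    have h1 : (c ⊗ₜ[ℤ] u : UM p H) = c • ((1 : ℂ_[p]) ⊗ₜ[ℤ] u) := by
      rw [TensorProduct.smul_tmul', smul_eq_mul, mul_one]
    rw [h1, hn, Finset.smul_sum]
    refine Finset.sum_congr rfl fun k _ => ?_
    rw [smul_smul]
  | add x y hx hy =>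
    obtain ⟨b, rfl⟩ := hx
    obtain ⟨b', rfl⟩ := hy
    refine ⟨b + b', ?_⟩
    rw [← Finset.sum_add_distrib]
    refine Finset.sum_congr rfl fun k _ => ?_
    rw [Pi.add_apply, add_smul]

/-- the vectors with algebraic coordinates -/
noncomputable def AU (p : ℕ) [Fact p.Prime] (H : Type) [Field H] [NumberField H] :
    Submodule (algebraicClosure ℚ ℂ_[p]) (UM p H) :=
  Submodule.span _ (Set.range fun u : Additive (𝓞 H)ˣ => (1 : ℂ_[p]) ⊗ₜ[ℤ] u)

lemma one_tmul_mem (u : Additive (𝓞 H)ˣ) : (1 : ℂ_[p]) ⊗ₜ[ℤ] u ∈ AU p H :=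
  Submodule.subset_span ⟨u, rfl⟩

lemma smul_mem_AU {x : UM p H} (hx : x ∈ AU p H) {c : ℂ_[p]} (hc : IsAlgebraic ℚ c) :
    c • x ∈ AU p H := by
  have h1 := (AU p H).smul_mem (⟨c, mem_algebraicClosure_iff.2 hc⟩ : algebraicClosure ℚ ℂ_[p]) hx
  exact h1

lemma decomp_alg {x : UM p H} (hx : x ∈ AU p H) : ∃ b : Fin (Units.rank H) → ℂ_[p],
    (∀ k, IsAlgebraic ℚ (b k)) ∧ x = ∑ k, b k • ((1 : ℂ_[p]) ⊗ₜ[ℤ] fu H k) := by
  refine Submodule.span_induction (p := fun x _ => ∃ b : Fin (Units.rank H) → ℂ_[p],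
    (∀ k, IsAlgebraic ℚ (b k)) ∧ x = ∑ k, b k • ((1 : ℂ_[p]) ⊗ₜ[ℤ] fu H k)) ?_ ?_ ?_ ?_ hx
  · rintro _ ⟨u, rfl⟩
    obtain ⟨n, hn⟩ := one_tmul_decomp (p := p) u
    exact ⟨fun k => n k, fun k => isAlgebraic_intCast _, hn⟩
  · exact ⟨0, fun k => isAlgebraic_zero, by simp⟩
  · rintro x y - - ⟨b, hb, rfl⟩ ⟨b', hb', rfl⟩
    refine ⟨b + b', fun k => (hb k).add (hb' k), ?_⟩
    rw [← Finset.sum_add_distrib]
    refine Finset.sum_congr rfl fun k _ => ?_
    rw [Pi.add_apply, add_smul]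
  · rintro c x - ⟨b, hb, rfl⟩
    refine ⟨fun k => (c : ℂ_[p]) * b k, fun k => (mem_algebraicClosure_iff.1 c.2).mul (hb k), ?_⟩
    have h1 : ∀ y : UM p H, c • y = (c : ℂ_[p]) • y := fun y => rfl
    rw [h1, Finset.smul_sum]
    refine Finset.sum_congr rfl fun k _ => ?_
    rw [smul_smul]

lemma push_mem_AU {M : Type} [Field M] [NumberField M] (f : H →+* M) {x : UM p H}
    (hx : x ∈ AU p H) : push f x ∈ AU p M := by
  refine Submodule.span_induction (p := fun x _ => push f x ∈ AU p M) ?_ ?_ ?_ ?_ hx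
  · rintro _ ⟨u, rfl⟩
    exact one_tmul_mem _
  · rw [map_zero]; exact zero_mem _
  · rintro x y - - h1 h2
    rw [map_add]; exact add_mem h1 h2
  · rintro c x - h
    have h1 : c • x = (c : ℂ_[p]) • x := rfl
    rw [h1, map_smul]
    exact smul_mem_AU h (mem_algebraicClosure_iff.1 c.2)

lemma norm_emb_place (s : H →+* ℂ) (y : H) : ‖s y‖ = InfinitePlace.mk s y := rfl

/-- a vector killed by all real logarithms is zero -/
lemma eq_zero_of_lam (θ : ℂ_[p] ≃+* ℂ) (x : UM p H) (hx : ∀ s : H →+* ℂ, lam θ s x = 0) :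
    x = 0 := by
  classical
  obtain ⟨b, rfl⟩ := decomp x
  have hind : LinearIndependent ℝ
      (fun k => logEmbedding H (Additive.ofMul (fundSystem H k))) := isMaxRank_fundSystem H
  rw [Fintype.linearIndependent_iff] at hind
  -- the complex relation
  have h1 : ∀ w : InfinitePlace H, ∑ k, θ (b k) * (Real.log (w (fundSystem H k : 𝓞 H)) : ℂ) = 0 := by
    intro w
    have h2 := hx w.embedding
    have h3 := congrArg θ h2
    rw [map_zero, map_sum, map_sum] at h3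
    rw [← h3]
    refine Finset.sum_congr rfl fun k _ => ?_
    rw [map_smul, lam_tmul, one_mul, smul_eq_mul, map_mul, θ.apply_symm_apply]
    congr 3
    rw [InfinitePlace.norm_embedding_eq]
    rfl
  have h4 : ∀ g : ℂ →ₗ[ℝ] ℝ, (∀ k, g (θ (b k)) = 0) := by
    intro g
    apply hind
    funext w
    rw [Finset.sum_apply, Pi.zero_apply]
    have h5 := congrArg g (h1 w)
    rw [map_zero, map_sum] at h5
    have h6 : ∀ k, g (θ (b k) * (Real.log (w.1 (fundSystem H k : 𝓞 H)) : ℂ)) =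
        Real.log (w.1 (fundSystem H k : 𝓞 H)) * g (θ (b k)) := by
      intro k
      have h7 : θ (b k) * (Real.log (w.1 (fundSystem H k : 𝓞 H)) : ℂ) =
          Real.log (w.1 (fundSystem H k : 𝓞 H)) • θ (b k) := by
        rw [Complex.real_smul, mul_comm]
      rw [h7, map_smul, smul_eq_mul]
    have h8 : ∀ k, (g (θ (b k)) • logEmbedding H (Additive.ofMul (fundSystem H k))) w =
        (InfinitePlace.mult w.1 : ℝ) * (Real.log (w.1 (fundSystem H k : 𝓞 H)) * g (θ (b k))) := by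
      intro k
      rw [Pi.smul_apply, logEmbedding_component, smul_eq_mul]
      ring
    rw [Finset.sum_congr rfl (fun k _ => h8 k), ← Finset.mul_sum]
    rw [Finset.sum_congr rfl (fun k _ => h6 k)] at h5
    rw [h5, mul_zero]
  have h9 : ∀ k, b k = 0 := by
    intro k
    have h10 : θ (b k) = 0 := Complex.ext (h4 Complex.reLm k) (h4 Complex.imLm k)
    exact (map_eq_zero θ).1 h10
  simp [h9]

/-- in a totally complex field, the only relation between the logarithms of the absolute values of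
units is the product formula -/
lemma const_of_rel [IsTotallyComplex H] (f : InfinitePlace H → ℂ)
    (hf : ∀ u : (𝓞 H)ˣ, ∑ w, f w * (Real.log (w (u : 𝓞 H)) : ℂ) = 0) (w w' : InfinitePlace H) :
    f w = f w' := by
  classical
  have hmult : ∀ w : InfinitePlace H, (InfinitePlace.mult w : ℝ) = 2 := by
    intro w
    have h1 : InfinitePlace.IsComplex w := IsTotallyComplex.isComplex w
    rw [InfinitePlace.mult, if_neg (by rwa [InfinitePlace.not_isReal_iff_isComplex])]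
    norm_num
  -- it suffices to compare with the distinguished place, after applying a real functional
  have key : ∀ g : ℂ →ₗ[ℝ] ℝ, ∀ w : InfinitePlace H, g (f w) = g (f w₀) := by
    intro g w
    have hg : ∀ u : (𝓞 H)ˣ, ∑ w, g (f w) * Real.log (w (u : 𝓞 H)) = 0 := by
      intro u
      have h5 := congrArg g (hf u)
      rw [map_zero, map_sum] at h5
      rw [← h5]
      refine Finset.sum_congr rfl fun v _ => ?_
      have h7 : f v * (Real.log (v (u : 𝓞 H)) : ℂ) = Real.log (v (u : 𝓞 H)) • f v := by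
        rw [Complex.real_smul, mul_comm]
      rw [h7, map_smul, smul_eq_mul, mul_comm]
    let φ : logSpace H →ₗ[ℝ] ℝ := ∑ w : {w : InfinitePlace H // w ≠ w₀},
      (g (f w.1) - g (f w₀)) • LinearMap.proj w
    have hφ : ∀ v, φ v = ∑ w : {w : InfinitePlace H // w ≠ w₀}, (g (f w.1) - g (f w₀)) * v w := by
      intro v
      simp [φ, LinearMap.sum_apply]
    have hφ0 : ∀ v ∈ (unitLattice H : Set (logSpace H)), φ v = 0 := by
      intro v hv
      obtain ⟨u, rfl⟩ : ∃ u : Additive (𝓞 H)ˣ, logEmbedding H u = v := by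
        obtain ⟨u, -, hu⟩ := hv
        exact ⟨u, hu⟩
      obtain ⟨u, rfl⟩ := Additive.ofMul.surjective u
      rw [hφ]
      have h1 := hg u
      have h2 := sum_mult_mul_log u
      rw [Fintype.sum_eq_add_sum_subtype_ne _ w₀] at h1 h2
      have h3 : ∀ w : {w : InfinitePlace H // w ≠ w₀},
          (g (f w.1) - g (f w₀)) * logEmbedding H (Additive.ofMul u) w =
          2 * (g (f w.1) * Real.log (w.1 (u : 𝓞 H))) -
            g (f w₀) * (InfinitePlace.mult w.1 * Real.log (w.1 (u : 𝓞 H))) := by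
        intro w
        rw [logEmbedding_component, hmult]
        ring
      rw [Finset.sum_congr rfl (fun w _ => h3 w), Finset.sum_sub_distrib, ← Finset.mul_sum,
        ← Finset.mul_sum]
      rw [hmult] at h2
      linear_combination 2 * h1 - g (f w₀) * h2
    have hφ1 : φ = 0 := by
      have h1 : Submodule.span ℝ (unitLattice H : Set (logSpace H)) ≤ LinearMap.ker φ :=
        Submodule.span_le.2 (fun v hv => LinearMap.mem_ker.2 (hφ0 v hv))
      rw [unitLattice_span_eq_top] at h1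
      exact LinearMap.ker_eq_top.1 (top_le_iff.1 h1)
    by_cases hw : w = w₀
    · rw [hw]
    · have h1 := congrArg (fun ψ : logSpace H →ₗ[ℝ] ℝ => ψ (Pi.single ⟨w, hw⟩ 1)) hφ1
      simp only [LinearMap.zero_apply] at h1
      rw [hφ, Finset.sum_eq_single ⟨w, hw⟩ (by
        intro v _ hv
        rw [Pi.single_eq_of_ne hv, mul_zero]) (by simp), Pi.single_eq_same, mul_one] at h1
      linarith
  have key' : ∀ w, f w = f w₀ := fun w =>
    Complex.ext (key Complex.reLm w) (key Complex.imLm w)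
  rw [key' w, key' w']

end units

end Pool.Agent.W332.SL6
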