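import Pool.Agent.W254.PA.LogP
import Pool.Agent.W245.PB.BakerThmP
import Pool.Agent.W289.SL.Emb
import Pool.Agent.W332.SL6.Units

set_option autoImplicit false
set_option linter.unusedSectionVars false

/-!
# `p`-adic logarithms of units of number fields: Brumer's theorem and the hyperplane theorem
-/

namespace Pool.Agent.W332.SL6

open NumberField TensorProduct Pool.Agent.W289.SL
open NumberField.Units NumberField.Units.dirichletUnitTheorem
open Pool.Agent.W254.PA (ic norm_ic exists_theta exists_preimage alg_Θ exp_log_near exists_pow_near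
  LgP mem_LgP Lθ mem_Lθ obsProp_padic hyp_of_embed Hyp LtE)
open NormedSpace

variable {p : ℕ} [hp : Fact p.Prime]

/-- algebraic numbers with a power close to `1` -/
structure NearU (u : ℂ_[p]) : Prop where
  ne : u ≠ 0
  alg : IsAlgebraic ℚ u
  near : ∀ δ : ℝ, 0 < δ → ∃ M : ℕ, 1 ≤ M ∧ ‖u ^ M - 1‖ < δ

lemma pre_alg {u : ℂ_[p]} (hu : IsAlgebraic ℚ u) :
    ∃ v : PadicAlgCl p, IsAlgebraic ℚ v ∧ ic p v = u := by
  obtain ⟨θ⟩ := exists_theta p
  have h1 : IsAlgebraic ℚ ((θ : ℂ_[p] →+* ℂ) u) := alg_Θ _ hu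
  obtain ⟨v, hv, h⟩ := exists_preimage ((θ : ℂ_[p] →+* ℂ).comp (ic p)) h1
  exact ⟨v, hv, θ.injective h⟩

lemma nearU_unit {M : Type} [Field M] [NumberField M] (s : M →+* ℂ_[p]) (u : (𝓞 M)ˣ) :
    NearU (s (u : 𝓞 M)) := by
  have halg : IsAlgebraic ℚ (s (u : 𝓞 M)) :=
    (Algebra.IsAlgebraic.isAlgebraic (R := ℚ) ((u : 𝓞 M) : M)).algHom (RingHom.toRatAlgHom s)
  refine ⟨?_, halg, ?_⟩
  · rw [Ne, map_eq_zero]; simp
  · intro δ hδ
    obtain ⟨v, -, hv⟩ := pre_alg halg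
    have h1 : ‖v‖ = 1 := by
      rw [← norm_ic, hv]
      exact norm_emb_unit s u
    obtain ⟨N, hN, h2⟩ := exists_pow_near p v h1 δ hδ
    refine ⟨N, hN, ?_⟩
    rw [← hv]
    have h3 : ic p v ^ N - 1 = ic p (v ^ N - 1) := by rw [map_sub, map_pow, map_one]
    rw [h3, norm_ic]
    exact h2

section logs

variable {L : ℂ_[p] → ℂ_[p]} (hL : IsIwasawaLog p L)

include hL

lemma exists_exp : ∃ δ : ℝ, 0 < δ ∧ ∀ z : ℂ_[p], ‖z‖ < δ →
    ‖L (1 + z)‖ ≤ ‖z‖ ∧ exp (L (1 + z)) = 1 + z :=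
  exp_log_near p (RingHom.id ℂ_[p]) (fun x => rfl) L hL.mul 2 (1 / 8) (by norm_num)
    (fun z hz => hL.approx hz.le)

lemma log_mem {u : ℂ_[p]} (hu : NearU u) : L u ∈ LgP p (𝕂 := ℂ_[p]) := by
  have hpp : (0 : ℝ) < p := by exact_mod_cast hp.out.pos
  have hpi : (0 : ℝ) < (p : ℝ)⁻¹ := by positivity
  obtain ⟨δ, hδ, h⟩ := exists_exp hL
  obtain ⟨M, hM, hM2⟩ := hu.near (min δ (p : ℝ)⁻¹) (lt_min hδ hpi)
  obtain ⟨h1, h2⟩ := h (u ^ M - 1) (lt_of_lt_of_le hM2 (min_le_left _ _))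
  have h3 : 1 + (u ^ M - 1) = u ^ M := by ring
  rw [h3, hL.pow hu.ne] at h1 h2
  rw [mem_LgP]
  refine ⟨M, hM, lt_of_le_of_lt h1 (lt_of_lt_of_le hM2 (min_le_right _ _)), ?_⟩
  rw [h2]
  exact hu.alg.pow M

lemma exists_pow_one {u : ℂ_[p]} (hu : NearU u) (h0 : L u = 0) : ∃ M : ℕ, 1 ≤ M ∧ u ^ M = 1 := by
  obtain ⟨δ, hδ, h⟩ := exists_exp hL
  obtain ⟨M, hM, hM2⟩ := hu.near δ hδ
  obtain ⟨-, h2⟩ := h (u ^ M - 1) hM2
  have h3 : 1 + (u ^ M - 1) = u ^ M := by ring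
  rw [h3, hL.pow hu.ne, h0, mul_zero, exp_zero] at h2
  exact ⟨M, hM, h2.symm⟩

/-- two Iwasawa logarithms agree on units -/
lemma log_unique {L' : ℂ_[p] → ℂ_[p]} (hL' : IsIwasawaLog p L') {u : ℂ_[p]} (hu : NearU u) :
    L u = L' u := by
  obtain ⟨M, hM, hM2⟩ := hu.near 1 one_pos
  have h1 := (hL.ser (u ^ M - 1) hM2).unique (hL'.ser (u ^ M - 1) hM2)
  have h3 : 1 + (u ^ M - 1) = u ^ M := by ring
  rw [h3, hL.pow hu.ne, hL'.pow hu.ne] at h1
  have h4 : (M : ℂ_[p]) ≠ 0 := by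
    have : M ≠ 0 := by omega
    exact_mod_cast this
  exact mul_left_cancel₀ h4 h1

/-- **Brumer's theorem.** -/
lemma brumerC {ι : Type} [Fintype ι] (u : ι → ℂ_[p]) (hu : ∀ i, NearU (u i))
    (hli : LinearIndependent ℚ fun i => L (u i)) (c : ι → ℂ_[p]) (hc : ∀ i, IsAlgebraic ℚ (c i))
    (h : ∑ i, c i * L (u i) = 0) : ∀ i, c i = 0 := by
  have hp2 : (2 : ℝ) ≤ p := by exact_mod_cast hp.out.two_le
  have hp8 : (8 : ℝ) ≤ (p : ℝ) ^ 3 := by
    calc (8 : ℝ) = 2 ^ 3 := by norm_num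
      _ ≤ (p : ℝ) ^ 3 := by gcongr
  have hp3 : (0 : ℝ) < (p : ℝ) ^ 3 := by linarith
  choose M hM hM2 using fun i => (hu i).near (((p : ℝ) ^ 3)⁻¹) (by positivity)
  have hM0 : ∀ i, (M i : ℂ_[p]) ≠ 0 := by
    intro i
    have : M i ≠ 0 := by have := hM i; omega
    exact_mod_cast this
  have hMq : ∀ i, (M i : ℚ) ≠ 0 := by
    intro i
    have : M i ≠ 0 := by have := hM i; omega
    exact_mod_cast this
  have hnear : ∀ i, ‖u i ^ M i - 1‖ * (p : ℝ) ^ 3 ≤ 1 := by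
    intro i
    have h1 := mul_le_mul_of_nonneg_right (hM2 i).le hp3.le
    rwa [inv_mul_cancel₀ hp3.ne'] at h1
  have h18 : ∀ z : ℂ_[p], ‖z‖ * (p : ℝ) ^ 3 ≤ 1 → ‖z‖ ≤ 1 / 8 := by
    intro z hz
    have h1 : ‖z‖ * 8 ≤ ‖z‖ * (p : ℝ) ^ 3 := by gcongr
    linarith
  have happ : ∀ z : ℂ_[p], ‖z‖ * (p : ℝ) ^ 3 ≤ 1 → ‖L (1 + z) - z‖ ≤ p * ‖z‖ ^ 2 := by
    intro z hz
    refine (hL.approx (h18 z hz)).trans ?_
    gcongr
  have hω : ∀ i, L (u i ^ M i) = (M i : ℂ_[p]) * L (u i) := fun i => hL.pow (hu i).ne _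
  have hsm : ∀ i, ‖L (u i ^ M i)‖ * (p : ℝ) ^ 3 ≤ 1 := by
    intro i
    set z := u i ^ M i - 1 with hz
    have h3 : u i ^ M i = 1 + z := by rw [hz]; ring
    have h4 := hL.approx (h18 z (hnear i))
    have h5 : ‖L (1 + z)‖ ≤ ‖z‖ := by
      have h6 : L (1 + z) = (L (1 + z) - z) + z := by ring
      rw [h6]
      refine (IsUltrametricDist.norm_add_le_max _ _).trans (max_le (h4.trans ?_) le_rfl)
      have := h18 z (hnear i)
      nlinarith [norm_nonneg z]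
    rw [h3]
    exact le_trans (by gcongr) (hnear i)
  have hpe : ∀ i, Pool.Agent.W245.PB.pe (L (u i ^ M i)) = u i ^ M i := by
    intro i
    apply Pool.Agent.W245.PB.pe_log p (hnear i)
    intro n
    have h1 : ‖(u i ^ M i) ^ (p ^ n) - 1‖ * (p : ℝ) ^ 3 ≤ 1 := by
      rw [Pool.Agent.W245.PB.norm_pow_p_iter p (hnear i)]
      refine le_trans ?_ (hnear i)
      have hpi : (p : ℝ)⁻¹ ≤ 1 := inv_le_one_of_one_le₀ (by linarith)
      have : ‖u i ^ M i - 1‖ * (p : ℝ)⁻¹ ^ n ≤ ‖u i ^ M i - 1‖ * 1 := by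
        gcongr
        exact pow_le_one₀ (by positivity) hpi
      rw [mul_one] at this
      gcongr
    have h2 := happ _ h1
    have h3 : 1 + ((u i ^ M i) ^ (p ^ n) - 1) = (u i ^ M i) ^ (p ^ n) := by ring
    rw [h3, hL.pow (pow_ne_zero _ (hu i).ne)] at h2
    push_cast at h2
    exact h2
  have hli' : LinearIndependent ℚ fun i => L (u i ^ M i) := by
    rw [Fintype.linearIndependent_iff] at hli ⊢
    intro g hg i
    have h1 := hli (fun i => g i * (M i : ℚ)) (by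
      rw [← hg]
      refine Finset.sum_congr rfl fun j _ => ?_
      rw [hω, mul_smul]
      congr 1
      rw [Algebra.smul_def, map_natCast]) i
    exact (mul_eq_zero.1 h1).resolve_right (hMq i)
  have h2 := (Pool.Agent.W245.PB.baker_smallP p (fun i => L (u i ^ M i)) hsm
    (fun i => by rw [hpe]; exact (hu i).alg.pow _) hli' 0 isAlgebraic_zero
    (fun i => c i / (M i : ℂ_[p]))
    (fun i => by
      rw [div_eq_mul_inv]
      exact (hc i).mul (isAlgebraic_natCast _).inv) (by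
      rw [zero_add, ← h]
      refine Finset.sum_congr rfl fun i _ => ?_
      rw [hω]
      have := hM0 i
      field_simp)).2
  intro i
  have h3 := h2 i
  rcases div_eq_zero_iff.1 h3 with h4 | h4
  · exact h4
  · exact absurd h4 (hM0 i)

omit hL in
/-- **The `p`-adic hyperplane theorem.** -/
theorem hypC : Hyp (LtE ((LgP p (𝕂 := ℂ_[p])) : Set ℂ_[p])) := by
  obtain ⟨θ⟩ := exists_theta p
  refine hyp_of_embed (θ : ℂ_[p] →+* ℂ) (Lθ p θ) _ (obsProp_padic p Pool.Agent.H301R2.SSE.zeg θ) ?_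
  intro z hz
  rw [mem_Lθ]
  have h1 : θ.symm ((θ : ℂ_[p] →+* ℂ) z) = z := θ.symm_apply_apply z
  rw [h1]
  exact hz

variable {M : Type} [Field M] [NumberField M] (σ : M →+* ℂ_[p])

/-- the logarithms of the fundamental units are independent -/
lemma indep_log : LinearIndependent ℚ (fun k => L (σ (fundSystem M k : 𝓞 M))) := by
  rw [← LinearIndependent.iff_fractionRing ℤ ℚ, Fintype.linearIndependent_iff]
  intro n hn
  have h1 : logHom hL σ (∑ k, n k • fu M k) = 0 := by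
    rw [map_sum, ← hn]
    refine Finset.sum_congr rfl fun k _ => ?_
    rw [map_zsmul]
    rfl
  set w : (𝓞 M)ˣ := Additive.toMul (∑ k, n k • fu M k) with hw
  have h2 : L (σ (w : 𝓞 M)) = 0 := h1
  obtain ⟨m, hm, h3⟩ := exists_pow_one hL (nearU_unit σ w) h2
  have h4 : w ^ m = 1 := by
    apply Units.ext
    apply RingOfIntegers.ext
    apply σ.injective
    rw [Units.val_pow_eq_pow_val]
    simpa using h3
  have h5 : w ∈ torsion M := by
    rw [torsion, CommGroup.mem_torsion]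
    exact isOfFinOrder_iff_pow_eq_one.2 ⟨m, by omega, h4⟩
  have h6 := logEmbedding_eq_zero_iff.2 h5
  have h7 : logEmbedding M (Additive.ofMul w) = ∑ k, n k • logEmbedding M (fu M k) := by
    rw [hw, ofMul_toMul, map_sum]
    refine Finset.sum_congr rfl fun k _ => ?_
    rw [map_zsmul]
  have hind : LinearIndependent ℝ
      (fun k => logEmbedding M (Additive.ofMul (fundSystem M k))) := isMaxRank_fundSystem M
  rw [Fintype.linearIndependent_iff] at hind
  intro k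
  have h8 := hind (fun k => (n k : ℝ)) (by
    rw [h7] at h6
    rw [← h6]
    refine Finset.sum_congr rfl fun k _ => ?_
    rw [Int.cast_smul_eq_zsmul]
    rfl) k
  exact_mod_cast h8

/-- a vector with algebraic coordinates is determined by one logarithm -/
lemma eq_zero_of_log {x : UM p M} (hx : x ∈ AU p M) (h : logLin hL σ x = 0) : x = 0 := by
  obtain ⟨b, hb, rfl⟩ := decomp_alg hx
  have h1 := brumerC hL (fun k => σ (fundSystem M k : 𝓞 M)) (fun k => nearU_unit σ _)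
    (indep_log hL σ) b hb (by
      rw [← h, map_sum]
      refine Finset.sum_congr rfl fun k _ => ?_
      rw [map_smul, logLin_tmul', one_mul, smul_eq_mul]
      rfl)
  simp [h1]

lemma logLin_mem {x : UM p M} (hx : x ∈ AU p M) :
    logLin hL σ x ∈ LtE ((LgP p (𝕂 := ℂ_[p])) : Set ℂ_[p]) := by
  refine Submodule.span_induction
    (p := fun x _ => logLin hL σ x ∈ LtE ((LgP p (𝕂 := ℂ_[p])) : Set ℂ_[p])) ?_ ?_ ?_ ?_ hx
  · rintro _ ⟨u, rfl⟩
    rw [logLin_tmul', one_mul]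
    exact Submodule.subset_span (Or.inr (log_mem hL (nearU_unit σ _)))
  · rw [map_zero]; exact zero_mem _
  · rintro x y - - h1 h2
    rw [map_add]; exact add_mem h1 h2
  · rintro c x - h
    have h1 : c • x = (c : ℂ_[p]) • x := rfl
    rw [h1, map_smul]
    exact Submodule.smul_mem _ c h

end logs

end Pool.Agent.W332.SL6
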