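import Pool.Agent.W332.SL6.Chi
import Pool.Agent.W332.SL6.LogC

set_option autoImplicit false
set_option linter.unusedSectionVars false

/-!
# Real quadratic base fields: two CM types
-/

namespace Pool.Agent.W332.SL6

open NumberField TensorProduct Pool.Agent.W289.SL
open NumberField.Units NumberField.Units.dirichletUnitTheorem
open Pool.Agent.W254.PA (exists_theta LgP Hyp LtE)

variable {p : ℕ} [Fact p.Prime]

/-- a totally complex field with an endomorphism inducing complex conjugation everywhere is a CM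
field -/
theorem isCM_of_conj {H : Type} [Field H] [NumberField H] [IsTotallyComplex H] (j : H →+* H)
    (hj : ∀ (s : H →+* ℂ) (y : H), s (j y) = star (s y)) : IsCMField H := by
  classical
  obtain ⟨s0⟩ : Nonempty (H →+* ℂ) := inferInstance
  have hjj : ∀ y, j (j y) = y := by
    intro y
    apply s0.injective
    rw [hj, hj, star_star]
  let e : H ≃+* H := RingEquiv.ofRingHom j j (RingHom.ext hjj) (RingHom.ext hjj)
  have hej : ∀ y, e y = j y := fun y => rfl
  have hne : e ≠ 1 := by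
    intro h
    refine IsTotallyComplex.complexEmbedding_not_isReal s0 ?_
    rw [ComplexEmbedding.isReal_iff]
    ext y
    rw [ComplexEmbedding.conjugate_coe_eq]
    have h1 := hj s0 y
    rw [← hej, h] at h1
    exact h1.symm
  have hord : orderOf (e : RingAut H) = 2 := by
    apply orderOf_eq_prime
    · ext y
      rw [pow_two]
      exact hjj y
    · exact hne
  let G : Subgroup (RingAut H) := Subgroup.zpowers e
  have hcard : Nat.card G = 2 := by rw [Nat.card_zpowers, hord]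
  have : Finite G := Nat.finite_of_card_ne_zero (by rw [hcard]; norm_num)
  have : Fintype G := Fintype.ofFinite G
  have hfix : FixedPoints.subfield G H = maximalRealSubfield H := by
    ext y
    rw [mem_maximalRealSubfield_iff]
    constructor
    · intro h s
      have h1 := h ⟨e, Subgroup.mem_zpowers e⟩
      have h2 : j y = y := h1
      rw [← hj, h2]
    · intro h g
      have h2 : e • y = y := by
        apply s0.injective
        change s0 (j y) = s0 y
        rw [hj, h]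
      obtain ⟨g, n, rfl⟩ := g
      change (e ^ n : RingAut H) • y = y
      have h3 : (e : RingAut H) ∈ MulAction.stabilizer (RingAut H) y := h2
      exact Subgroup.zpow_mem _ h3 n
  have hfin : Module.finrank (FixedPoints.subfield G H) H = 2 := by
    rw [FixedPoints.finrank_eq_card, ← Nat.card_eq_fintype_card, hcard]
  have hfin' : Module.finrank (maximalRealSubfield H) H = 2 := by
    rw [← hfix]; exact hfin
  exact { is_quadratic := ⟨hfin'⟩ }

section chi

variable {K H : Type} [Field K] [NumberField K] [Field H] [NumberField H] [Algebra K H]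
  [FiniteDimensional K H]

lemma InChi.add {χ : (H ≃ₐ[K] H) →* ℂ_[p]ˣ} {x y : UM p H} (hx : InChi χ x) (hy : InChi χ y) :
    InChi χ (x + y) := fun τ => by rw [map_add, hx τ, hy τ, smul_add]

lemma InChi.sub {χ : (H ≃ₐ[K] H) →* ℂ_[p]ˣ} {x y : UM p H} (hx : InChi χ x) (hy : InChi χ y) :
    InChi χ (x - y) := fun τ => by rw [map_sub, hx τ, hy τ, smul_sub]

lemma InChi.smul {χ : (H ≃ₐ[K] H) →* ℂ_[p]ˣ} {x : UM p H} (hx : InChi χ x) (c : ℂ_[p]) :
    InChi χ (c • x) := fun τ => by rw [map_smul, hx τ, smul_comm]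

lemma lam_zero_of_place [IsGalois K H] (θ : ℂ_[p] ≃+* ℂ) {χ : (H ≃ₐ[K] H) →* ℂ_[p]ˣ} {y : UM p H}
    (hy : InChi χ y) (s t : H →+* ℂ)
    (h : InfinitePlace.mk (s.comp (algebraMap K H)) = InfinitePlace.mk (t.comp (algebraMap K H)))
    (ht : lam θ t y = 0) : lam θ s y = 0 := by
  rcases InfinitePlace.mk_eq_iff.1 h with h1 | h1
  · obtain ⟨g, rfl⟩ := exists_aut s t h1
    rw [lam_inChi θ hy, ht, mul_zero]
  · obtain ⟨g, hg⟩ := exists_aut ((starRingEnd ℂ).comp s) t h1
    rw [← lam_conj, hg, lam_inChi θ hy, ht, mul_zero]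

lemma eq_zero_of_two [IsGalois K H] (θ : ℂ_[p] ≃+* ℂ) (s1 s2 : H →+* ℂ)
    (hpl : ∀ w : InfinitePlace K, w = InfinitePlace.mk (s1.comp (algebraMap K H)) ∨
      w = InfinitePlace.mk (s2.comp (algebraMap K H)))
    {χ : (H ≃ₐ[K] H) →* ℂ_[p]ˣ} {y : UM p H} (hy : InChi χ y)
    (h1 : lam θ s1 y = 0) (h2 : lam θ s2 y = 0) : y = 0 := by
  apply eq_zero_of_lam θ
  intro s
  rcases hpl (InfinitePlace.mk (s.comp (algebraMap K H))) with h | h
  · exact lam_zero_of_place θ hy s s1 h h1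
  · exact lam_zero_of_place θ hy s s2 h h2

variable [IsTotallyComplex K]

lemma exists_ne (θ : ℂ_[p] ≃+* ℂ) {χ : (H ≃ₐ[K] H) →* ℂ_[p]ˣ} (hχ : χ ≠ 1)
    (s1 s2 : H →+* ℂ)
    (h12 : InfinitePlace.mk (s1.comp (algebraMap K H)) ≠
      InfinitePlace.mk (s2.comp (algebraMap K H))) (s : H →+* ℂ) :
    ∃ u : Additive (𝓞 H)ˣ, lam θ s (xu χ u) ≠ 0 := by
  have key : ∀ s' : H →+* ℂ, InfinitePlace.mk (s.comp (algebraMap K H)) ≠
      InfinitePlace.mk (s'.comp (algebraMap K H)) →
      ∃ u : Additive (𝓞 H)ˣ, lam θ s (xu χ u) ≠ 0 := by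
    intro s' hs
    by_contra hcon
    push Not at hcon
    have h1 := indep2 θ hχ s s' hs 1 0 (fun u => by rw [hcon, mul_zero, zero_mul, add_zero])
    exact one_ne_zero h1.1
  by_cases h : InfinitePlace.mk (s.comp (algebraMap K H)) =
      InfinitePlace.mk (s1.comp (algebraMap K H))
  · exact key s2 (by rw [h]; exact h12)
  · exact key s1 h

lemma exists_det (θ : ℂ_[p] ≃+* ℂ) {χ : (H ≃ₐ[K] H) →* ℂ_[p]ˣ} (hχ : χ ≠ 1)
    (s1 s2 : H →+* ℂ)
    (h12 : InfinitePlace.mk (s1.comp (algebraMap K H)) ≠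
      InfinitePlace.mk (s2.comp (algebraMap K H))) :
    ∃ u1 u2 : Additive (𝓞 H)ˣ, lam θ s1 (xu χ u1) * lam θ s2 (xu χ u2) -
      lam θ s2 (xu χ u1) * lam θ s1 (xu χ u2) ≠ 0 := by
  obtain ⟨u1, hu1⟩ := exists_ne θ hχ s1 s2 h12 s1
  refine ⟨u1, ?_⟩
  by_contra hcon
  push Not at hcon
  have h1 := indep2 θ hχ s1 s2 h12 (-lam θ s2 (xu χ u1)) (lam θ s1 (xu χ u1))
    (fun u => by linear_combination hcon u)
  exact hu1 h1.2

/-- the `χ`-part is spanned by two vectors with algebraic coordinates -/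
lemma exists_span [IsGalois K H] (θ : ℂ_[p] ≃+* ℂ) {χ : (H ≃ₐ[K] H) →* ℂ_[p]ˣ} (hχ : χ ≠ 1)
    (s1 s2 : H →+* ℂ)
    (h12 : InfinitePlace.mk (s1.comp (algebraMap K H)) ≠
      InfinitePlace.mk (s2.comp (algebraMap K H)))
    (hpl : ∀ w : InfinitePlace K, w = InfinitePlace.mk (s1.comp (algebraMap K H)) ∨
      w = InfinitePlace.mk (s2.comp (algebraMap K H))) :
    ∃ e1 e2 : UM p H, e1 ∈ AU p H ∧ e2 ∈ AU p H ∧ InChi χ e1 ∧ InChi χ e2 ∧ e1 ≠ 0 ∧
      ∀ x : UM p H, InChi χ x → ∃ a b : ℂ_[p], x = a • e1 + b • e2 := by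
  obtain ⟨u1, u2, hD⟩ := exists_det θ hχ s1 s2 h12
  refine ⟨xu χ u1, xu χ u2, xu_mem_AU χ u1, xu_mem_AU χ u2, xu_inChi χ u1, xu_inChi χ u2, ?_, ?_⟩
  · intro h
    apply hD
    rw [h, map_zero, map_zero]
    ring
  · intro x hx
    set D := lam θ s1 (xu χ u1) * lam θ s2 (xu χ u2) -
      lam θ s2 (xu χ u1) * lam θ s1 (xu χ u2) with hDdef
    refine ⟨(lam θ s1 x * lam θ s2 (xu χ u2) - lam θ s2 x * lam θ s1 (xu χ u2)) / D,
      (lam θ s1 (xu χ u1) * lam θ s2 x - lam θ s2 (xu χ u1) * lam θ s1 x) / D, ?_⟩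
    rw [← sub_eq_zero]
    refine eq_zero_of_two θ s1 s2 hpl (χ := χ)
      (hx.sub (((xu_inChi χ u1).smul _).add ((xu_inChi χ u2).smul _))) ?_ ?_
    · rw [map_sub, map_add, map_smul, map_smul, smul_eq_mul, smul_eq_mul]
      field_simp
      rw [hDdef]
      ring
    · rw [map_sub, map_add, map_smul, map_smul, smul_eq_mul, smul_eq_mul]
      field_simp
      rw [hDdef]
      ring

/-- the hyperplane theorem for three embeddings -/
theorem exists_rel {L : ℂ_[p] → ℂ_[p]} (hL : IsIwasawaLog p L) (σ : Fin 3 → (H →+* ℂ_[p]))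
    (e1 e2 : UM p H) (he1 : e1 ∈ AU p H) (he2 : e2 ∈ AU p H) (hne : e1 ≠ 0) (a b a' b' : ℂ_[p])
    (hx : a • e1 + b • e2 ≠ 0) (hx' : a' • e1 + b' • e2 ≠ 0)
    (h0 : logLin hL (σ 0) (a • e1 + b • e2) = 0) (h1 : logLin hL (σ 1) (a • e1 + b • e2) = 0)
    (h0' : logLin hL (σ 0) (a' • e1 + b' • e2) = 0)
    (h2' : logLin hL (σ 2) (a' • e1 + b' • e2) = 0) :
    ∃ g : Fin 3 → ℂ_[p], (∀ j, IsAlgebraic ℚ (g j)) ∧ (∃ j, g j ≠ 0) ∧
      (∑ j, g j * logLin hL (σ j) e1 = 0) ∧ (∑ j, g j * logLin hL (σ j) e2 = 0) := by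
  classical
  rw [map_add, map_smul, map_smul, smul_eq_mul, smul_eq_mul] at h0 h1 h0' h2'
  have hA : logLin hL (σ 0) e1 ≠ 0 := fun h => hne (eq_zero_of_log hL (σ 0) he1 h)
  have hb : b ≠ 0 := by
    rintro rfl
    rw [zero_mul, add_zero] at h0
    have h3 := (mul_eq_zero.1 h0).resolve_right hA
    apply hx
    rw [h3, zero_smul, zero_smul, add_zero]
  have hb' : b' ≠ 0 := by
    rintro rfl
    rw [zero_mul, add_zero] at h0'
    have h3 := (mul_eq_zero.1 h0').resolve_right hA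
    apply hx'
    rw [h3, zero_smul, zero_smul, add_zero]
  have hab : a' * b = a * b' := by
    apply mul_left_cancel₀ hA
    linear_combination b * h0' - b' * h0
  have h2 : a * logLin hL (σ 2) e1 + b * logLin hL (σ 2) e2 = 0 := by
    apply mul_left_cancel₀ hb'
    rw [mul_zero]
    linear_combination b * h2' - logLin hL (σ 2) e1 * hab
  have hli : LinearIndependent (algebraicClosure ℚ ℂ_[p]) ![a, b] := by
    rw [LinearIndependent.pair_iff]
    intro s t hst
    have hst' : (s : ℂ_[p]) * a + (t : ℂ_[p]) * b = 0 := hst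
    by_cases hs : (s : ℂ_[p]) = 0
    · rw [hs, zero_mul, zero_add] at hst'
      have ht := (mul_eq_zero.1 hst').resolve_right hb
      exact ⟨Subtype.ext hs, Subtype.ext ht⟩
    · exfalso
      have hralg : IsAlgebraic ℚ (-((t : ℂ_[p]) / s)) := by
        rw [div_eq_mul_inv]
        exact ((mem_algebraicClosure_iff.1 t.2).mul (mem_algebraicClosure_iff.1 s.2).inv).neg
      have ha : a = b * (-((t : ℂ_[p]) / s)) := by
        field_simp
        linear_combination hst'
      have hy : a • e1 + b • e2 = b • ((-((t : ℂ_[p]) / s)) • e1 + e2) := by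
        rw [ha, smul_add, smul_smul]
      have hy0 : (-((t : ℂ_[p]) / s)) • e1 + e2 = 0 := by
        apply eq_zero_of_log hL (σ 0) (add_mem (smul_mem_AU he1 hralg) he2)
        apply mul_left_cancel₀ hb
        rw [mul_zero, map_add, map_smul, smul_eq_mul]
        rw [ha] at h0
        linear_combination h0
      apply hx
      rw [hy, hy0, smul_zero]
  have hnot : ¬ LinearIndependent (algebraicClosure ℚ ℂ_[p])
      (fun (j : Fin 3) (i : Fin 2) => logLin hL (σ j) (![e1, e2] i)) := by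
    intro hcon
    have h3 := hypC (p := p) 2 3 ![a, b] (fun i j => logLin hL (σ j) (![e1, e2] i)) hli
      (fun i j => by
        fin_cases i
        · exact logLin_mem hL (σ j) he1
        · exact logLin_mem hL (σ j) he2)
      (fun j => by
        rw [Fin.sum_univ_two]
        fin_cases j
        · exact h0
        · exact h1
        · exact h2) hcon
    omega
  rw [Fintype.not_linearIndependent_iff] at hnot
  obtain ⟨g, hg, j, hj⟩ := hnot
  refine ⟨fun j => g j, fun j => mem_algebraicClosure_iff.1 (g j).2,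
    ⟨j, fun h => hj (Subtype.ext h)⟩, ?_, ?_⟩
  · have h3 := congrFun hg 0
    rw [Finset.sum_apply] at h3
    exact h3
  · have h3 := congrFun hg 1
    rw [Finset.sum_apply] at h3
    exact h3

/-- the relation between the embeddings -/
theorem push_eq_step [IsGalois K H] (θ : ℂ_[p] ≃+* ℂ)
    {χ : (H ≃ₐ[K] H) →* ℂ_[p]ˣ} (hχ : χ ≠ 1)
    (c : K →+* K) (hconj : ∀ b : K →+* ℂ, (starRingEnd ℂ).comp b = b.comp c)
    {L : ℂ_[p] → ℂ_[p]} (hL : IsIwasawaLog p L) (σ : Fin 3 → (H →+* ℂ_[p]))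
    (h12 : InfinitePlace.mk (((θ : ℂ_[p] →+* ℂ).comp (σ 0)).comp (algebraMap K H)) ≠
      InfinitePlace.mk (((θ : ℂ_[p] →+* ℂ).comp (σ 1)).comp (algebraMap K H)))
    (hpl : ∀ w : InfinitePlace K,
      w = InfinitePlace.mk (((θ : ℂ_[p] →+* ℂ).comp (σ 0)).comp (algebraMap K H)) ∨
      w = InfinitePlace.mk (((θ : ℂ_[p] →+* ℂ).comp (σ 1)).comp (algebraMap K H)))
    (h23 : (σ 2).comp (algebraMap K H) = ((σ 1).comp (algebraMap K H)).comp c)
    (x x' : UM p H) (hx : InChi χ x) (hx0 : x ≠ 0) (hx' : InChi χ x') (hx0' : x' ≠ 0)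
    (h0 : logLin hL (σ 0) x = 0) (h1 : logLin hL (σ 1) x = 0)
    (h0' : logLin hL (σ 0) x' = 0) (h2' : logLin hL (σ 2) x' = 0)
    (M : Type) [Field M] [NumberField M] (inc : M →+* ℂ_[p]) (τ : Fin 3 → (H →+* M))
    (hτ : ∀ j, inc.comp (τ j) = σ j) :
    ∃ g0 : H ≃ₐ[K] H, ∀ x : UM p H, InChi χ x →
      push (τ 2) x = push ((τ 1).comp (g0 : H →+* H)) x := by
  classical
  obtain ⟨e1, e2, he1, he2, hc1, hc2, hne, hspan⟩ := exists_span θ hχ _ _ h12 hpl
  obtain ⟨a, b, rfl⟩ := hspan x hx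
  obtain ⟨a', b', rfl⟩ := hspan x' hx'
  obtain ⟨g, hgalg, ⟨j0, hj0⟩, hg1, hg2⟩ :=
    exists_rel hL σ e1 e2 he1 he2 hne a b a' b' hx0 hx0' h0 h1 h0' h2'
  -- the algebraic relation in `M`
  have hX : ∀ e : UM p H, e ∈ AU p H → ∑ j, g j * logLin hL (σ j) e = 0 →
      ∑ j, g j • push (τ j) e = 0 := by
    intro e he h
    apply eq_zero_of_log hL inc (Submodule.sum_mem _ fun j _ =>
      smul_mem_AU (push_mem_AU (τ j) he) (hgalg j))
    rw [map_sum, ← h]
    refine Finset.sum_congr rfl fun j _ => ?_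
    rw [map_smul, smul_eq_mul, logLin_push, hτ]
  have hX1 := hX e1 he1 hg1
  have hX2 := hX e2 he2 hg2
  have hrel : ∀ x : UM p H, InChi χ x → ∑ j, g j • push (τ j) x = 0 := by
    intro x hx
    obtain ⟨a, b, rfl⟩ := hspan x hx
    have h3 : ∀ j, g j • push (τ j) (a • e1 + b • e2) =
        a • (g j • push (τ j) e1) + b • (g j • push (τ j) e2) := by
      intro j
      rw [map_add, map_smul, map_smul, smul_add, smul_comm, smul_comm (g j) b]
    rw [Finset.sum_congr rfl (fun j _ => h3 j), Finset.sum_add_distrib, ← Finset.smul_sum,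
      ← Finset.smul_sum, hX1, hX2, smul_zero, smul_zero, add_zero]
  -- the archimedean side
  have hlam : ∀ x : UM p H, InChi χ x →
      ∑ j, g j * lam θ ((θ : ℂ_[p] →+* ℂ).comp (σ j)) x = 0 := by
    intro x hx
    have h3 := congrArg (lam θ ((θ : ℂ_[p] →+* ℂ).comp inc)) (hrel x hx)
    rw [map_zero, map_sum] at h3
    rw [← h3]
    refine Finset.sum_congr rfl fun j _ => ?_
    rw [map_smul, smul_eq_mul, lam_push, RingHom.comp_assoc, hτ]
  obtain ⟨g0, hg0⟩ := exists_aut ((starRingEnd ℂ).comp ((θ : ℂ_[p] →+* ℂ).comp (σ 2)))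
    ((θ : ℂ_[p] →+* ℂ).comp (σ 1)) (by
      rw [RingHom.comp_assoc, RingHom.comp_assoc, h23]
      have h3 := hconj ((θ : ℂ_[p] →+* ℂ).comp ((σ 1).comp (algebraMap K H)))
      rw [RingHom.comp_assoc] at h3
      rw [← h3]
      exact RingHom.ext fun k => Complex.conj_conj _)
  have hs3 : ∀ x : UM p H, InChi χ x → lam θ ((θ : ℂ_[p] →+* ℂ).comp (σ 2)) x =
      ((χ g0 : ℂ_[p]ˣ) : ℂ_[p]) * lam θ ((θ : ℂ_[p] →+* ℂ).comp (σ 1)) x := by
    intro x hx
    rw [← lam_conj, hg0, lam_inChi θ hx]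
  obtain ⟨hc0, hc12⟩ := indep2 θ hχ _ _ h12 (g 0) (g 1 + g 2 * ((χ g0 : ℂ_[p]ˣ) : ℂ_[p]))
    (fun u => by
      have h3 := hlam _ (xu_inChi χ u)
      rw [Fin.sum_univ_three, hs3 _ (xu_inChi χ u)] at h3
      linear_combination h3)
  have hg2ne : g 2 ≠ 0 := by
    intro h
    rw [h, zero_mul, add_zero] at hc12
    apply hj0
    fin_cases j0
    · exact hc0
    · exact hc12
    · exact h
  refine ⟨g0, fun x hx => ?_⟩
  have h3 := hrel x hx
  rw [Fin.sum_univ_three, hc0, zero_smul, zero_add] at h3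
  have h4 : g 1 = -(g 2 * ((χ g0 : ℂ_[p]ˣ) : ℂ_[p])) := by linear_combination hc12
  have h5 : push ((τ 1).comp (g0 : H →+* H)) x = ((χ g0 : ℂ_[p]ˣ) : ℂ_[p]) • push (τ 1) x := by
    rw [← push_push, ← actLin_eq (g0 : H →+* H), hx g0, map_smul]
  rw [h5]
  rw [h4, neg_smul, mul_smul, neg_add_eq_zero] at h3
  have h6 := congrArg (fun y => (g 2)⁻¹ • y) h3
  simp only [inv_smul_smul₀ hg2ne] at h6
  exact h6.symm

/-- equality of two embeddings on the `χ`-part forces `H` to be a CM field -/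
theorem conj_step [IsGalois K H] (θ : ℂ_[p] ≃+* ℂ)
    {χ : (H ≃ₐ[K] H) →* ℂ_[p]ˣ} (hinj : Function.Injective χ) (hχ : χ ≠ 1)
    (c : K →+* K) (hconj : ∀ b : K →+* ℂ, (starRingEnd ℂ).comp b = b.comp c)
    (s1 s2 : H →+* ℂ) (h12 : InfinitePlace.mk (s1.comp (algebraMap K H)) ≠
      InfinitePlace.mk (s2.comp (algebraMap K H)))
    (M : Type) [Field M] [NumberField M] [IsGalois ℚ M] (f h : H →+* M)
    (hfh : h.comp (algebraMap K H) = (f.comp (algebraMap K H)).comp c)
    (hp : ∀ x : UM p H, InChi χ x → push h x = push f x) :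
    ∃ j : H →+* H, ∀ (s : H →+* ℂ) (y : H), s (j y) = star (s y) := by
  classical
  -- Galois theory: the image of `h` lies in the image of `f`
  have hrange : ∀ y : H, ∃ z : H, f z = h y := by
    intro y
    let E : IntermediateField ℚ M := (RingHom.toRatAlgHom f).fieldRange
    have hE : ∀ z : H, f z ∈ E := fun z => ⟨z, rfl⟩
    have hy : h y ∈ E := by
      rw [← IsGalois.fixedField_fixingSubgroup E, IntermediateField.mem_fixedField_iff]
      intro γ hγ
      rw [IntermediateField.mem_fixingSubgroup_iff] at hγ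
      have hγf : (γ : M →+* M).comp f = f := RingHom.ext fun z => hγ _ (hE z)
      obtain ⟨τ, hτ⟩ := exists_aut (K := K) ((γ : M →+* M).comp h) h (by
        rw [RingHom.comp_assoc, hfh, ← RingHom.comp_assoc, ← RingHom.comp_assoc, hγf])
      obtain ⟨t⟩ : Nonempty (M →+* ℂ) := inferInstance
      obtain ⟨u, hu⟩ := exists_ne θ hχ s1 s2 h12 (t.comp h)
      have hx := xu_inChi χ u
      have h1 : lam θ t (push ((γ : M →+* M).comp h) (xu χ u)) = lam θ (t.comp h) (xu χ u) := by
        rw [← push_push, hp _ hx, push_push, hγf, ← hp _ hx, lam_push]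
      have h2 : lam θ t (push ((γ : M →+* M).comp h) (xu χ u)) =
          ((χ τ : ℂ_[p]ˣ) : ℂ_[p]) * lam θ (t.comp h) (xu χ u) := by
        rw [hτ, lam_push, ← RingHom.comp_assoc, lam_inChi θ hx]
      rw [h1] at h2
      have h3 : χ τ = 1 := by
        apply Units.ext
        apply mul_right_cancel₀ hu
        rw [← h2, Units.val_one, one_mul]
      have h4 : τ = 1 := hinj (by rw [h3, map_one])
      have h5 := RingHom.congr_fun hτ y
      rw [h4] at h5
      exact h5
    obtain ⟨z, hz⟩ := hy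
    exact ⟨z, hz⟩
  let j : H →+* H := (f.rangeRestrictFieldEquiv.symm : f.fieldRange →+* H).comp
    (h.codRestrict f.fieldRange (fun y => by
      obtain ⟨z, hz⟩ := hrange y
      exact ⟨z, hz⟩))
  have hj : f.comp j = h := by
    ext y
    have h1 := f.rangeRestrictFieldEquiv.apply_symm_apply
      (h.codRestrict f.fieldRange (fun y => by
      obtain ⟨z, hz⟩ := hrange y
      exact ⟨z, hz⟩) y)
    exact congrArg (fun z : f.fieldRange => (z : M)) h1
  have hjK : j.comp (algebraMap K H) = (algebraMap K H).comp c := by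
    ext k
    apply f.injective
    have h1 := RingHom.congr_fun hj (algebraMap K H k)
    have h2 := RingHom.congr_fun hfh k
    exact h1.trans h2
  refine ⟨j, fun s y => ?_⟩
  -- extend `s` to `M` along `f`
  obtain ⟨t, ht⟩ : ∃ t : M →+* ℂ, t.comp f = s := by
    let := f.toAlgebra
    let := s.toAlgebra
    have : Algebra.IsAlgebraic H M := Algebra.IsAlgebraic.tower_top (K := ℚ) H
    let φ : M →ₐ[H] ℂ := IsAlgClosed.lift
    exact ⟨φ, φ.comp_algebraMap⟩
  have h1 : ∀ x : UM p H, InChi χ x → lam θ (s.comp j) x = lam θ s x := by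
    intro x hx
    rw [← ht, RingHom.comp_assoc, hj, ← lam_push, hp x hx, lam_push]
  obtain ⟨g, hg⟩ := exists_aut ((starRingEnd ℂ).comp s) (s.comp j) (by
    rw [RingHom.comp_assoc, hconj, RingHom.comp_assoc, RingHom.comp_assoc, hjK])
  obtain ⟨u, hu⟩ := exists_ne θ hχ s1 s2 h12 s
  have hx := xu_inChi χ u
  have h2 : lam θ s (xu χ u) = ((χ g : ℂ_[p]ˣ) : ℂ_[p]) * lam θ s (xu χ u) := by
    calc lam θ s (xu χ u) = lam θ ((starRingEnd ℂ).comp s) (xu χ u) := (lam_conj θ s _).symm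
      _ = ((χ g : ℂ_[p]ˣ) : ℂ_[p]) * lam θ (s.comp j) (xu χ u) := by rw [hg, lam_inChi θ hx]
      _ = _ := by rw [h1 _ hx]
  have h3 : χ g = 1 := by
    apply Units.ext
    apply mul_right_cancel₀ hu
    rw [← h2, Units.val_one, one_mul]
  have h4 : g = 1 := hinj (by rw [h3, map_one])
  have h5 := RingHom.congr_fun hg y
  rw [h4] at h5
  exact h5.symm

end chi

/-- a Galois extension of `ℚ` receiving all embeddings of `H` -/
lemma exists_big (p : ℕ) [Fact p.Prime] (H : Type) [Field H] [NumberField H] :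
    ∃ (M : Type) (_ : Field M) (_ : NumberField M) (_ : IsGalois ℚ M) (inc : M →+* ℂ_[p]),
      ∀ σ : H →+* ℂ_[p], ∃ τ : H →+* M, inc.comp τ = σ := by
  have hN : IsNormalClosure ℚ H (IntermediateField.normalClosure ℚ H ℂ_[p]) :=
    Algebra.IsAlgebraic.isNormalClosure_normalClosure (fun x => IsAlgClosed.splits _)
  have hn : Normal ℚ (IntermediateField.normalClosure ℚ H ℂ_[p]) := hN.normal
  have hfd : FiniteDimensional ℚ (IntermediateField.normalClosure ℚ H ℂ_[p]) := inferInstance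
  have hnf : NumberField (IntermediateField.normalClosure ℚ H ℂ_[p]) :=
    { to_charZero := inferInstance
      to_finiteDimensional := by convert hfd }
  have hg : IsGalois ℚ (IntermediateField.normalClosure ℚ H ℂ_[p]) := {}
  refine ⟨IntermediateField.normalClosure ℚ H ℂ_[p], inferInstance, hnf, by convert hg,
    ((IntermediateField.normalClosure ℚ H ℂ_[p]).val : _ →+* ℂ_[p]), ?_⟩
  intro σ
  let σ' : H →ₐ[ℚ] ℂ_[p] := RingHom.toRatAlgHom σ
  let τ : H →ₐ[ℚ] (IntermediateField.normalClosure ℚ H ℂ_[p]).toSubalgebra :=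
    σ'.codRestrict _ (fun x => σ'.fieldRange_le_normalClosure ⟨x, rfl⟩)
  refine ⟨τ.toRingHom, ?_⟩
  ext y
  rfl

lemma logLin_unique {H : Type} [Field H] [NumberField H] {L L' : ℂ_[p] → ℂ_[p]}
    (hL : IsIwasawaLog p L) (hL' : IsIwasawaLog p L') (σ : H →+* ℂ_[p]) (x : UM p H) :
    logLin hL σ x = logLin hL' σ x := by
  induction x using TensorProduct.induction_on with
  | zero => simp
  | tmul c u =>
    rw [logLin_tmul', logLin_tmul', log_unique hL hL' (nearU_unit σ (Additive.toMul u))]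
  | add x y hx hy => rw [map_add, map_add, hx, hy]

/-- extension of embeddings -/
lemma exists_ext {K H : Type} [Field K] [Field H] [Algebra K H]
    [Algebra.IsAlgebraic K H] (τ : K →+* ℂ_[p]) :
    ∃ s : H →+* ℂ_[p], s.comp (algebraMap K H) = τ := by
  let := τ.toAlgebra
  let f : H →ₐ[K] ℂ_[p] := IsAlgClosed.lift
  exact ⟨f, f.comp_algebraMap⟩

/-- **Main theorem.** -/
theorem two_types (F K H : Type) [Field F] [NumberField F] [IsTotallyReal F] [Field K]
    [NumberField K] [IsTotallyComplex K] [Algebra F K] (hF : Module.finrank ℚ F = 2)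
    (hFK : Module.finrank F K = 2) [Field H] [NumberField H] [Algebra K H] [IsGalois K H]
    (hCM : ¬ IsCMField H) (χ : (H ≃ₐ[K] H) →* ℂ_[p]ˣ) (hinj : Function.Injective χ)
    (hχ : χ ≠ 1) (S S' : Set (K →+* ℂ_[p])) (hS : IsCMType p F K S) (hS' : IsCMType p F K S')
    (hne : S' ≠ S) (hne' : S' ≠ Sᶜ) :
    SigmaLeopoldt p K H S χ ∨ SigmaLeopoldt p K H S' χ := by
  classical
  by_contra hcon
  rw [not_or] at hcon
  obtain ⟨hcon1, hcon2⟩ := hcon
  unfold SigmaLeopoldt at hcon1 hcon2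
  push Not at hcon1 hcon2
  obtain ⟨L, hL, x, hx, hx1, hx0⟩ := hcon1
  obtain ⟨L', hL', x', hx', hx1', hx0'⟩ := hcon2
  have hx1'' : ∀ σ : H →+* ℂ_[p], σ.comp (algebraMap K H) ∈ S' → logLin hL σ x' = 0 := by
    intro σ hσ
    rw [logLin_unique hL hL']
    exact hx1' σ hσ
  obtain ⟨θ⟩ := exists_theta p
  -- the nontrivial automorphism of `K` over `F`
  have : Algebra.IsQuadraticExtension F K := ⟨hFK⟩
  have : FiniteDimensional F K := Module.finite_of_finrank_pos (by omega)
  have : IsGalois F K := inferInstance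
  have hcard : Nat.card (K ≃ₐ[F] K) = 2 := by rw [IsGalois.card_aut_eq_finrank, hFK]
  obtain ⟨c, hc1, hcu⟩ := (Nat.card_eq_two_iff' (1 : K ≃ₐ[F] K)).1 hcard
  have hcu' : ∀ τ : K ≃ₐ[F] K, τ ≠ 1 → τ = c := hcu
  have hcc : ∀ k : K, c (c k) = k := by
    intro k
    have h1 : c ^ Nat.card (K ≃ₐ[F] K) = 1 := pow_card_eq_one'
    rw [hcard, pow_two] at h1
    exact congrArg (fun f : K ≃ₐ[F] K => f k) h1
  have hconj : ∀ b : K →+* ℂ, (starRingEnd ℂ).comp b = b.comp (c : K →+* K) := by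
    intro b
    obtain ⟨τ, hτ⟩ := exists_aut (K := F) ((starRingEnd ℂ).comp b) b (by
      have h1 : ComplexEmbedding.IsReal (b.comp (algebraMap F K)) := by
        rw [← InfinitePlace.isReal_mk_iff]
        exact IsTotallyReal.isReal _
      exact h1)
    have hτ1 : τ ≠ 1 := by
      rintro rfl
      refine IsTotallyComplex.complexEmbedding_not_isReal b ?_
      rw [ComplexEmbedding.isReal_iff]
      exact hτ
    rw [hτ, hcu' τ hτ1]
  have hSc := hS c hc1
  have hSc' := hS' c hc1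
  have hbcc : ∀ b : K →+* ℂ_[p], (b.comp (c : K →+* K)).comp (c : K →+* K) = b := by
    intro b
    ext k
    change b (c (c k)) = b k
    rw [hcc]
  -- choice of the three embeddings of `K`
  obtain ⟨b1, hb1, hb1'⟩ : ∃ b1, b1 ∈ S ∧ b1 ∈ S' := by
    by_contra hcon
    push Not at hcon
    apply hne'
    ext b
    constructor
    · intro hb hb2
      exact hcon b hb2 hb
    · intro hb
      by_contra hb2
      have h1 : b.comp (c : K →+* K) ∈ S := by
        by_contra h; exact hb ((hSc b).2 h)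
      have h2 : b.comp (c : K →+* K) ∈ S' := by
        by_contra h; exact hb2 ((hSc' b).2 h)
      exact hcon _ h1 h2
  obtain ⟨b2, hb2, hb2'⟩ : ∃ b2, b2 ∈ S ∧ b2.comp (c : K →+* K) ∈ S' := by
    by_contra hcon
    push Not at hcon
    apply hne
    ext b
    constructor
    · intro hb
      by_contra hb2
      have h1 : b.comp (c : K →+* K) ∈ S := by
        by_contra h; exact hb2 ((hSc b).2 h)
      have h2 := hcon _ h1
      rw [hbcc] at h2
      exact h2 hb
    · intro hb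
      exact (hSc' b).2 (hcon b hb)
  have : FiniteDimensional K H := Module.Finite.of_restrictScalars_finite ℚ K H
  obtain ⟨σ1, hσ1⟩ := exists_ext (H := H) b1
  obtain ⟨σ2, hσ2⟩ := exists_ext (H := H) b2
  obtain ⟨σ3, hσ3⟩ := exists_ext (H := H) (b2.comp (c : K →+* K))
  have hS2 : ∀ b : K →+* ℂ_[p], b ∈ S → b.comp (c : K →+* K) ∉ S := fun b hb => (hSc b).1 hb
  have hS2' : ∀ b : K →+* ℂ_[p], b ∈ S' → b.comp (c : K →+* K) ∉ S' := fun b hb => (hSc' b).1 hb
  have h12 : InfinitePlace.mk ((θ : ℂ_[p] →+* ℂ).comp b1) ≠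
      InfinitePlace.mk ((θ : ℂ_[p] →+* ℂ).comp b2) := by
    intro h
    rcases InfinitePlace.mk_eq_iff.1 h with h1 | h1
    · have h2 : b1 = b2 := by
        ext k
        exact θ.injective (RingHom.congr_fun h1 k)
      rw [← h2] at hb2'
      exact hS2' b1 hb1' hb2'
    · have h2 : b1.comp (c : K →+* K) = b2 := by
        have h3 : ((θ : ℂ_[p] →+* ℂ).comp b1).comp (c : K →+* K) =
            (θ : ℂ_[p] →+* ℂ).comp b2 := by
          rw [← hconj]
          exact h1
        ext k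
        exact θ.injective (RingHom.congr_fun h3 k)
      rw [← h2] at hb2
      exact hS2 b1 hb1 hb2
  have hpl : ∀ w : InfinitePlace K, w = InfinitePlace.mk ((θ : ℂ_[p] →+* ℂ).comp b1) ∨
      w = InfinitePlace.mk ((θ : ℂ_[p] →+* ℂ).comp b2) := by
    have hfin : Module.finrank ℚ K = 4 := by
      rw [← Module.finrank_mul_finrank ℚ F K, hF, hFK]
    have h1 := IsTotallyComplex.finrank K
    rw [hfin] at h1
    have h1' := InfinitePlace.card_eq_nrRealPlaces_add_nrComplexPlaces K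
    rw [IsTotallyComplex.nrRealPlaces_eq_zero K] at h1'
    have h2 : Fintype.card (InfinitePlace K) = 2 := by omega
    have h3 : ({InfinitePlace.mk ((θ : ℂ_[p] →+* ℂ).comp b1),
        InfinitePlace.mk ((θ : ℂ_[p] →+* ℂ).comp b2)} : Finset (InfinitePlace K)) =
        Finset.univ := by
      apply Finset.eq_univ_of_card
      rw [Finset.card_pair h12, h2]
    intro w
    have h4 : w ∈ ({InfinitePlace.mk ((θ : ℂ_[p] →+* ℂ).comp b1),
        InfinitePlace.mk ((θ : ℂ_[p] →+* ℂ).comp b2)} : Finset (InfinitePlace K)) := by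
      rw [h3]; exact Finset.mem_univ w
    simpa using h4
  have h12' : InfinitePlace.mk (((θ : ℂ_[p] →+* ℂ).comp σ1).comp (algebraMap K H)) ≠
      InfinitePlace.mk (((θ : ℂ_[p] →+* ℂ).comp σ2).comp (algebraMap K H)) := by
    rw [RingHom.comp_assoc, RingHom.comp_assoc, hσ1, hσ2]
    exact h12
  obtain ⟨M, iM, iN, iG, inc, hinc⟩ := exists_big p H
  choose τ hτ using fun j => hinc (![σ1, σ2, σ3] j)
  obtain ⟨g0, hg0⟩ := push_eq_step θ hχ (c : K →+* K) hconj hL ![σ1, σ2, σ3] h12'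
    (by
      intro w
      have h1 := hpl w
      rw [← hσ1, ← hσ2] at h1
      exact h1)
    (by
      change σ3.comp (algebraMap K H) = (σ2.comp (algebraMap K H)).comp (c : K →+* K)
      rw [hσ3, hσ2])
    x x' hx hx0 hx' hx0'
    (hx1 σ1 (by rw [hσ1]; exact hb1)) (hx1 σ2 (by rw [hσ2]; exact hb2))
    (hx1'' σ1 (by rw [hσ1]; exact hb1')) (hx1'' σ3 (by rw [hσ3]; exact hb2'))
    M inc τ hτ
  obtain ⟨j, hj⟩ := conj_step θ hinj hχ (c : K →+* K) hconj _ _ h12' M
    ((τ 1).comp (g0 : H →+* H)) (τ 2) (by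
      apply RingHom.ext
      intro k
      apply inc.injective
      have h1 : inc (τ 2 (algebraMap K H k)) = σ3 (algebraMap K H k) :=
        RingHom.congr_fun (hτ 2) (algebraMap K H k)
      have h2 : inc (τ 1 (algebraMap K H (c k))) = σ2 (algebraMap K H (c k)) :=
        RingHom.congr_fun (hτ 1) (algebraMap K H (c k))
      change inc (τ 2 (algebraMap K H k)) = inc (τ 1 (g0 (algebraMap K H (c k))))
      rw [AlgEquiv.commutes, h1, h2]
      have h3 := RingHom.congr_fun hσ3 k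
      have h4 := RingHom.congr_fun hσ2 (c k)
      exact h3.trans h4.symm) hg0
  have : IsTotallyComplex H := isTotallyComplex_of_algebra K H
  exact hCM (isCM_of_conj j hj)

end Pool.Agent.W332.SL6
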