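import Mathlib
import Pool.Agent.W332.SL6.Units

set_option autoImplicit false
set_option linter.unusedSectionVars false

/-!
# The `χ`-part of the units
-/

namespace Pool.Agent.W332.SL6

open NumberField TensorProduct Pool.Agent.W289.SL
open NumberField.Units NumberField.Units.dirichletUnitTheorem

variable {p : ℕ} [Fact p.Prime]

section chi

variable {K H : Type} [Field K] [NumberField K] [Field H] [NumberField H] [Algebra K H]
  [FiniteDimensional K H]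

/-- the `χ`-part -/
def InChi (χ : (H ≃ₐ[K] H) →* ℂ_[p]ˣ) (x : UM p H) : Prop :=
  ∀ τ : H ≃ₐ[K] H, actLin p (τ : H →+* H) x = ((χ τ : ℂ_[p]ˣ) : ℂ_[p]) • x

/-- the projection of a unit to the `χ`-part, up to a constant -/
noncomputable def xu (χ : (H ≃ₐ[K] H) →* ℂ_[p]ˣ) (u : Additive (𝓞 H)ˣ) : UM p H :=
  ∑ g : H ≃ₐ[K] H, ((χ g⁻¹ : ℂ_[p]ˣ) : ℂ_[p]) • ((1 : ℂ_[p]) ⊗ₜ[ℤ] uMap (g : H →+* H) u)

lemma chi_alg (χ : (H ≃ₐ[K] H) →* ℂ_[p]ˣ) (g : H ≃ₐ[K] H) :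
    IsAlgebraic ℚ ((χ g : ℂ_[p]ˣ) : ℂ_[p]) := by
  have h1 : g ^ Fintype.card (H ≃ₐ[K] H) = 1 := pow_card_eq_one
  have h2 : ((χ g : ℂ_[p]ˣ) : ℂ_[p]) ^ Fintype.card (H ≃ₐ[K] H) = 1 := by
    rw [← Units.val_pow_eq_pow_val, ← map_pow, h1, map_one, Units.val_one]
  have h3 : IsAlgebraic ℚ (((χ g : ℂ_[p]ˣ) : ℂ_[p]) ^ Fintype.card (H ≃ₐ[K] H)) := by
    rw [h2]; exact isAlgebraic_one
  exact h3.of_pow Fintype.card_pos

lemma xu_mem_AU (χ : (H ≃ₐ[K] H) →* ℂ_[p]ˣ) (u : Additive (𝓞 H)ˣ) : xu χ u ∈ AU p H :=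
  Submodule.sum_mem _ fun g _ => smul_mem_AU (one_tmul_mem _) (chi_alg χ g⁻¹)

lemma xu_inChi (χ : (H ≃ₐ[K] H) →* ℂ_[p]ˣ) (u : Additive (𝓞 H)ˣ) : InChi χ (xu χ u) := by
  intro τ
  rw [actLin_eq]
  unfold xu
  rw [map_sum, Finset.smul_sum]
  rw [← Equiv.sum_comp (Equiv.mulLeft τ⁻¹)]
  refine Finset.sum_congr rfl fun g _ => ?_
  rw [map_smul, push_tmul, uMap_comp, Equiv.coe_mulLeft, smul_smul]
  have h1 : ((τ : H →+* H).comp ((τ⁻¹ * g : H ≃ₐ[K] H) : H →+* H)) = (g : H →+* H) := by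
    ext x
    change τ ((τ⁻¹ * g) x) = g x
    rw [← AlgEquiv.mul_apply, mul_inv_cancel_left]
  rw [h1]
  congr 1
  rw [mul_inv_rev, inv_inv, map_mul, Units.val_mul, mul_comm]

lemma lam_inChi (θ : ℂ_[p] ≃+* ℂ) {χ : (H ≃ₐ[K] H) →* ℂ_[p]ˣ} {x : UM p H} (hx : InChi χ x)
    (s : H →+* ℂ) (g : H ≃ₐ[K] H) :
    lam θ (s.comp (g : H →+* H)) x = ((χ g : ℂ_[p]ˣ) : ℂ_[p]) * lam θ s x := by
  rw [← lam_push, ← actLin_eq, hx g, map_smul, smul_eq_mul]

lemma logLin_inChi {L : ℂ_[p] → ℂ_[p]} (hL : IsIwasawaLog p L) {χ : (H ≃ₐ[K] H) →* ℂ_[p]ˣ}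
    {x : UM p H} (hx : InChi χ x) (σ : H →+* ℂ_[p]) (g : H ≃ₐ[K] H) :
    logLin hL (σ.comp (g : H →+* H)) x = ((χ g : ℂ_[p]ˣ) : ℂ_[p]) * logLin hL σ x := by
  rw [← logLin_push, ← actLin_eq, hx g, map_smul, smul_eq_mul]

lemma lam_xu (θ : ℂ_[p] ≃+* ℂ) (χ : (H ≃ₐ[K] H) →* ℂ_[p]ˣ) (u : (𝓞 H)ˣ) (s : H →+* ℂ) :
    θ (lam θ s (xu χ (Additive.ofMul u))) = ∑ g : H ≃ₐ[K] H, θ ((χ g⁻¹ : ℂ_[p]ˣ) : ℂ_[p]) *
      ((Real.log (InfinitePlace.mk (s.comp (g : H →+* H)) (u : 𝓞 H)) : ℝ) : ℂ) := by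
  unfold xu
  rw [map_sum, map_sum]
  refine Finset.sum_congr rfl fun g _ => ?_
  rw [map_smul, lam_tmul, one_mul, smul_eq_mul, map_mul, θ.apply_symm_apply]
  rfl

/-- embeddings which agree on `K` differ by an automorphism -/
lemma exists_aut [IsGalois K H] {M' : Type} [Field M'] (f g : H →+* M')
    (h : f.comp (algebraMap K H) = g.comp (algebraMap K H)) :
    ∃ τ : H ≃ₐ[K] H, f = g.comp (τ : H →+* H) := by
  letI := g.toAlgebra
  letI : Algebra K M' := (g.comp (algebraMap K H)).toAlgebra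
  haveI : IsScalarTower K H M' := IsScalarTower.of_algebraMap_eq fun x => rfl
  let f' : H →ₐ[K] M' := { f with commutes' := fun x => RingHom.congr_fun h x }
  let e := Normal.algHomEquivAut K M' H
  refine ⟨e f', ?_⟩
  have h1 : e.symm (e f') = f' := e.symm_apply_apply f'
  ext x
  have h2 := congrArg (fun φ : H →ₐ[K] M' => φ x) h1
  exact h2.symm

lemma mk_inj [IsTotallyComplex K] (s : H →+* ℂ) (g g' : H ≃ₐ[K] H)
    (h : InfinitePlace.mk (s.comp (g : H →+* H)) = InfinitePlace.mk (s.comp (g' : H →+* H))) :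
    g = g' := by
  have hg : ∀ g : H ≃ₐ[K] H, ∀ k : K, s.comp (g : H →+* H) (algebraMap K H k) =
      s (algebraMap K H k) := by
    intro g k
    change s (g (algebraMap K H k)) = _
    rw [AlgEquiv.commutes]
  rcases InfinitePlace.mk_eq_iff.1 h with h1 | h1
  · ext x
    exact s.injective (RingHom.congr_fun h1 x)
  · exfalso
    refine IsTotallyComplex.complexEmbedding_not_isReal (s.comp (algebraMap K H)) ?_
    rw [ComplexEmbedding.isReal_iff]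
    ext k
    have h2 := RingHom.congr_fun h1 (algebraMap K H k)
    rw [ComplexEmbedding.conjugate_coe_eq, hg, hg] at h2
    exact h2

lemma mk_ne (s s' : H →+* ℂ)
    (hs : InfinitePlace.mk (s.comp (algebraMap K H)) ≠ InfinitePlace.mk (s'.comp (algebraMap K H)))
    (g g' : H ≃ₐ[K] H) :
    InfinitePlace.mk (s.comp (g : H →+* H)) ≠ InfinitePlace.mk (s'.comp (g' : H →+* H)) := by
  intro h
  apply hs
  have h1 := congrArg (fun w : InfinitePlace H => w.comap (algebraMap K H)) h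
  simp only [InfinitePlace.comap_mk] at h1
  have hg : ∀ (s : H →+* ℂ) (g : H ≃ₐ[K] H), (s.comp (g : H →+* H)).comp (algebraMap K H) =
      s.comp (algebraMap K H) := by
    intro s g
    ext k
    change s (g (algebraMap K H k)) = s (algebraMap K H k)
    rw [AlgEquiv.commutes]
  rwa [hg, hg] at h1

/-- the real logarithms at two different places of `K` are independent on the `χ`-part -/
theorem indep2 [IsTotallyComplex K] (θ : ℂ_[p] ≃+* ℂ) {χ : (H ≃ₐ[K] H) →* ℂ_[p]ˣ} (hχ : χ ≠ 1)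
    (s s' : H →+* ℂ)
    (hs : InfinitePlace.mk (s.comp (algebraMap K H)) ≠ InfinitePlace.mk (s'.comp (algebraMap K H)))
    (c c' : ℂ_[p])
    (h : ∀ u : Additive (𝓞 H)ˣ, c * lam θ s (xu χ u) + c' * lam θ s' (xu χ u) = 0) :
    c = 0 ∧ c' = 0 := by
  classical
  haveI : IsTotallyComplex H := isTotallyComplex_of_algebra K H
  let f : InfinitePlace H → ℂ := fun w =>
    (∑ g : H ≃ₐ[K] H, if InfinitePlace.mk (s.comp (g : H →+* H)) = w then
      θ c * θ ((χ g⁻¹ : ℂ_[p]ˣ) : ℂ_[p]) else 0) +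
    ∑ g : H ≃ₐ[K] H, if InfinitePlace.mk (s'.comp (g : H →+* H)) = w then
      θ c' * θ ((χ g⁻¹ : ℂ_[p]ˣ) : ℂ_[p]) else 0
  have hf : ∀ u : (𝓞 H)ˣ, ∑ w, f w * (Real.log (w (u : 𝓞 H)) : ℂ) = 0 := by
    intro u
    have h1 := congrArg θ (h (Additive.ofMul u))
    rw [map_add, map_mul, map_mul, map_zero, lam_xu, lam_xu] at h1
    rw [← h1]
    have h2 : ∀ (t : H →+* ℂ) (d : ℂ_[p]), ∑ w : InfinitePlace H,
        (∑ g : H ≃ₐ[K] H, if InfinitePlace.mk (t.comp (g : H →+* H)) = w then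
          θ d * θ ((χ g⁻¹ : ℂ_[p]ˣ) : ℂ_[p]) else 0) * (Real.log (w (u : 𝓞 H)) : ℂ) =
        θ d * ∑ g : H ≃ₐ[K] H, θ ((χ g⁻¹ : ℂ_[p]ˣ) : ℂ_[p]) *
          ((Real.log (InfinitePlace.mk (t.comp (g : H →+* H)) (u : 𝓞 H)) : ℝ) : ℂ) := by
      intro t d
      simp only [Finset.sum_mul]
      rw [Finset.sum_comm, Finset.mul_sum]
      refine Finset.sum_congr rfl fun g _ => ?_
      rw [Finset.sum_eq_single (InfinitePlace.mk (t.comp (g : H →+* H)))]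
      · rw [if_pos rfl]; ring
      · intro w _ hw
        rw [if_neg (Ne.symm hw), zero_mul]
      · intro hw
        exact absurd (Finset.mem_univ _) hw
    simp only [f, add_mul, Finset.sum_add_distrib]
    rw [h2, h2]
  have hconst := const_of_rel f hf
  obtain ⟨g0, hg0⟩ : ∃ g0 : H ≃ₐ[K] H, χ g0 ≠ 1 := by
    by_contra hcon
    push Not at hcon
    exact hχ (MonoidHom.ext hcon)
  have hv1 : ∀ g : H ≃ₐ[K] H, f (InfinitePlace.mk (s.comp (g : H →+* H))) =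
      θ c * θ ((χ g⁻¹ : ℂ_[p]ˣ) : ℂ_[p]) := by
    intro g
    simp only [f]
    rw [Finset.sum_eq_single g (fun g' _ hg' => if_neg (fun hh => hg' (mk_inj s g' g hh)))
      (fun hh => absurd (Finset.mem_univ _) hh), if_pos rfl,
      Finset.sum_eq_zero (fun g' _ => if_neg (fun hh => mk_ne s s' hs g g' hh.symm)), add_zero]
  have hv2 : ∀ g : H ≃ₐ[K] H, f (InfinitePlace.mk (s'.comp (g : H →+* H))) =
      θ c' * θ ((χ g⁻¹ : ℂ_[p]ˣ) : ℂ_[p]) := by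
    intro g
    simp only [f]
    rw [Finset.sum_eq_zero (fun g' _ => if_neg (fun hh => mk_ne s s' hs g' g hh)), zero_add,
      Finset.sum_eq_single g (fun g' _ hg' => if_neg (fun hh => hg' (mk_inj s' g' g hh)))
      (fun hh => absurd (Finset.mem_univ _) hh), if_pos rfl]
  have key : ∀ d : ℂ_[p], θ d * θ ((χ (g0⁻¹)⁻¹ : ℂ_[p]ˣ) : ℂ_[p]) =
      θ d * θ ((χ (1 : H ≃ₐ[K] H)⁻¹ : ℂ_[p]ˣ) : ℂ_[p]) → d = 0 := by
    intro d hd
    rw [inv_inv, inv_one, map_one, Units.val_one, map_one, mul_one, ← map_mul] at hd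
    have h3 := θ.injective hd
    by_contra hd0
    apply hg0
    apply Units.ext
    have h4 : d * ((χ g0 : ℂ_[p]ˣ) : ℂ_[p]) = d * 1 := by rw [h3, mul_one]
    exact mul_left_cancel₀ hd0 h4
  constructor
  · apply key
    rw [← hv1, ← hv1]
    exact hconst _ _
  · apply key
    rw [← hv2, ← hv2]
    exact hconst _ _

end chi

end Pool.Agent.W332.SL6
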